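import Pool.Agent.H72.PER.Targets

/-!
# Row ADD of the board per_modules: additivity along chains
-/

set_option autoImplicit false

open Module

namespace Pool.Agent.H33.PER

open Pool.Agent.H72.PER
open Pool.Agent.H72.SBP (MvK)

theorem pf_ADD (h : T_EXA) : T_ADD := by
  intro K F _ _ _ n l c x A
  obtain ⟨-, g2l, -, g4, -, g6⟩ := h K F n l c
  obtain ⟨g1, g2, -, -, -, -⟩ := h K F n c c
  have g5 : ext F (⊥ : Submodule K (Fin c → K)) = ⊥ := (h K F n c c).2.2.2.2.1
  constructor
  · intro V' V U'' U' hV hU hI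
    obtain ⟨X, hX⟩ : ∃ X, X = (ext F V).map (Matrix.vecMulLinear (MvK x A)) ⊔ ext F U'' :=
      ⟨_, rfl⟩
    obtain ⟨Y, hY⟩ : ∃ Y, Y = (ext F V').map (Matrix.vecMulLinear (MvK x A)) ⊔ ext F U'' :=
      ⟨_, rfl⟩
    have e1 : RR F x A V U'' = finrank F X := by rw [hX]; rfl
    have e2 : RR F x A V' U'' = finrank F Y := by rw [hY]; rfl
    have e3 : X ⊔ ext F U' = (ext F V).map (Matrix.vecMulLinear (MvK x A)) ⊔ ext F U' := by
      rw [hX, sup_assoc, sup_eq_right.2 (g2 _ _ hU)]
    have e4 : RR F x A V U' = finrank F (X ⊔ ext F U' : Submodule F (Fin c → F)) := by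
      rw [e3]; rfl
    have e5 : Y ≤ X ⊓ ext F U' := by
      rw [hY, hX]
      refine le_inf ?_ ?_
      · exact sup_le_sup (Submodule.map_mono (g2l _ _ hV)) le_rfl
      · exact sup_le (g6 x A V' U' hI) (g2 _ _ hU)
    have e6 := Submodule.finrank_sup_add_finrank_inf_eq X (ext F U')
    have e7 := Submodule.finrank_mono e5
    rw [e1, e2, e4, ← g1 U']
    omega
  · have e1 : RR F x A ⊤ ⊥ = finrank F (LinearMap.range (Matrix.vecMulLinear (MvK x A))) := by
      unfold RR
      rw [g4, g5, sup_bot_eq, Submodule.map_top]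
    rw [e1, ← Matrix.rank_transpose]
    unfold Matrix.rank
    rw [Matrix.mulVecLin_transpose]

end Pool.Agent.H33.PER
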